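import Pool.Agent.H69.FD.Eul
import Pool.Agent.H10.CQ.Defs

/-!
# Bridge: `ℓ_i(s) / (1 - s^p) = L_{p-1-i}(s)` in characteristic `p`
-/

open Polynomial Finset

namespace H87FD

/-- `∑_{k<p} k^m X^k` -/
noncomputable def Em (Ω : Type*) [Field Ω] (p m : ℕ) : Polynomial Ω :=
  ∑ k ∈ range p, C ((k : Ω) ^ m) * X ^ k

theorem Em_zero (Ω : Type*) [Field Ω] (p : ℕ) : Em Ω p 0 * (1 - X) = 1 - X ^ p := by
  have h : Em Ω p 0 = ∑ k ∈ range p, (X : Polynomial Ω) ^ k := by
    unfold Em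
    refine Finset.sum_congr rfl fun k _ => ?_
    rw [pow_zero, C_1, one_mul]
  rw [h]
  have h2 := geom_sum_mul_neg (X : Polynomial Ω) p
  exact h2

theorem Em_succ (Ω : Type*) [Field Ω] (p m : ℕ) :
    X * derivative (Em Ω p m) = Em Ω p (m + 1) := by
  unfold Em
  rw [derivative_sum, Finset.mul_sum]
  refine Finset.sum_congr rfl fun k _ => ?_
  rw [derivative_C_mul, derivative_X_pow]
  rcases Nat.eq_zero_or_pos k with h | h
  · subst h; simp
  · obtain ⟨j, rfl⟩ : ∃ j, k = j + 1 := ⟨k - 1, by omega⟩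
    rw [Nat.add_sub_cancel, pow_succ ((j + 1 : ℕ) : Ω) m, C_mul, pow_succ X j]
    ring

theorem Em_eul (Ω : Type*) [Field Ω] (p m : ℕ) [CharP Ω p] :
    Em Ω p m * (1 - X) ^ (m + 1) = (H69FD.eul m).map (Int.castRingHom Ω) * (1 - X ^ p) := by
  induction m with
  | zero =>
    rw [zero_add, pow_one, Em_zero, H69FD.eul_zero, Polynomial.map_one, one_mul]
  | succ m ih =>
    have h1 := congrArg derivative ih
    have hp : (derivative (1 - X ^ p : Polynomial Ω)) = 0 := by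
      rw [derivative_sub, derivative_one, derivative_X_pow, CharP.cast_eq_zero Ω p]
      simp
    have hq : derivative ((1 - X : Polynomial Ω) ^ (m + 1)) =
        -((m : Polynomial Ω) + 1) * (1 - X) ^ m := by
      rw [derivative_pow, derivative_sub, derivative_one, derivative_X]
      simp
      ring
    rw [derivative_mul, derivative_mul, hp, hq, mul_zero, add_zero, derivative_map] at h1
    rw [H69FD.eul_succ, ← Em_succ]
    simp only [Polynomial.map_mul, Polynomial.map_add, Polynomial.map_sub, Polynomial.map_one,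
      Polynomial.map_X, Polynomial.map_natCast]
    set A := (H69FD.eul m).map (Int.castRingHom Ω) with hA
    set B := (derivative (H69FD.eul m)).map (Int.castRingHom Ω) with hB
    set E := Em Ω p m with hE
    calc X * derivative E * (1 - X) ^ (m + 1 + 1)
        = X * (1 - X) * (derivative E * (1 - X) ^ (m + 1) +
            E * (-((m : Polynomial Ω) + 1) * (1 - X) ^ m)) +
            ((m : Polynomial Ω) + 1) * X * (E * (1 - X) ^ (m + 1)) := by ring
      _ = X * (1 - X) * (B * (1 - X ^ p)) + ((m : Polynomial Ω) + 1) * X * (A * (1 - X ^ p)) := by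
          rw [h1, ih]
      _ = _ := by ring

/-- `∑_{0<k<p} k^m s^k / (1 - s^p) = L_m(s)` for `m ≥ 1` -/
theorem sum_div_eq_LL {p : ℕ} [hp : Fact p.Prime] {Ω : Type*} [Field Ω] [CharP Ω p] (m : ℕ)
    (hm : 1 ≤ m) (s : Ω) (hs : s ≠ 1) :
    (∑ k ∈ Icc 1 (p - 1), (k : Ω) ^ m * s ^ k) / (1 - s ^ p) = H69FD.LL m s := by
  have h1 : (1 - s) ≠ 0 := sub_ne_zero.mpr (Ne.symm hs)
  have h2 : (1 - s ^ p) = (1 - s) ^ p := by
    rw [sub_pow_char, one_pow]
  have h3 : (1 - s ^ p) ≠ 0 := by rw [h2]; exact pow_ne_zero _ h1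
  have h4 := congrArg (Polynomial.eval s) (Em_eul Ω p m)
  rw [eval_mul, eval_mul, eval_pow, eval_sub, eval_one, eval_X, eval_sub, eval_one, eval_pow,
    eval_X] at h4
  have h5 : (Em Ω p m).eval s = ∑ k ∈ Icc 1 (p - 1), (k : Ω) ^ m * s ^ k := by
    unfold Em
    rw [eval_finsetSum]
    have hIcc : Icc 1 (p - 1) = Ico 1 p := by
      ext k; rw [Finset.mem_Icc, Finset.mem_Ico]; have := hp.out.pos; omega
    rw [hIcc, Finset.range_eq_Ico, Finset.sum_eq_sum_Ico_succ_bot hp.out.pos]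
    rw [eval_mul, eval_C, Nat.cast_zero, zero_pow (by omega), zero_mul, zero_add]
    refine Finset.sum_congr rfl fun k _ => ?_
    rw [eval_mul, eval_C, eval_pow, eval_X]
  have h6 : ((H69FD.eul m).map (Int.castRingHom Ω)).eval s = aeval s (H69FD.eul m) := by
    rw [eval_map]; rfl
  rw [h5, h6] at h4
  unfold H69FD.LL
  rw [div_eq_div_iff h3 (pow_ne_zero _ h1)]
  exact h4

/-- the bridge -/
theorem el_div_eq_LL {p : ℕ} [hp : Fact p.Prime] {Ω : Type*} [Field Ω] [CharP Ω p] (i : ℕ)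
    (hi : i + 2 ≤ p) (s : Ω) (hs : s ≠ 1) :
    H10CQ.el p i s / (1 - s ^ p) = H69FD.LL (p - 1 - i) s := by
  unfold H10CQ.el
  exact sum_div_eq_LL (p - 1 - i) (by omega) s hs

/-- the bridge in the variable `m = p - 1 - i` -/
theorem el_div_eq_LL' {p : ℕ} [hp : Fact p.Prime] {Ω : Type*} [Field Ω] [CharP Ω p] (m : ℕ)
    (hm : 1 ≤ m) (hmp : m + 1 ≤ p) (s : Ω) (hs : s ≠ 1) :
    H10CQ.el p (p - 1 - m) s / (1 - s ^ p) = H69FD.LL m s := by
  rw [el_div_eq_LL (p - 1 - m) (by omega) s hs]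
  congr 1
  omega

/-- the Kummer relations of `Dat` in terms of `L_m` -/
theorem kum_LL {p : ℕ} [hp : Fact p.Prime] {Ω : Type*} [Field Ω] [CharP Ω p] {n : ℕ}
    {s : Fin n → Ω} (hs : H10CQ.Dat p s) (m : ℕ) (hm : Even m) (hm2 : 2 ≤ m) (hmp : m + 3 ≤ p)
    (hB : ¬ (p : ℤ) ∣ (_root_.bernoulli (p - 1 - m)).num) : ∑ v, H69FD.LL m (s v) = 0 := by
  have hodd : Even (p - 1 - m) := by
    have hp2 : p ≠ 2 := by omega
    have h1 : Even (p - 1) := hp.out.even_sub_one hp2
    exact (Nat.even_sub (by omega)).mpr (iff_of_true h1 hm)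
  have h := hs.kum (p - 1 - m) hodd (by omega) (by omega) hB
  rw [← h]
  refine Finset.sum_congr rfl fun v _ => ?_
  rw [el_div_eq_LL' m (by omega) (by omega) (s v) (hs.ne1 v)]

end H87FD
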