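import Mathlib

/-!
# Finite families stable under `x ↦ 1/x` and `x ↦ 1 - x`

`Inv T`: the family `T : Fin n → Ω` is stable under inversion, as a multiset.
If `s`, `1 - 1/s`, `1/(1-s)` are stable under inversion, then `s` is stable under `x ↦ 1/x`,
`x ↦ 1 - x`, `x ↦ x/(x-1)` and the two maps of order three.
* `n` odd: `s v = -1` for some `v` (also `2` and `1/2`);
* `3 ∤ n`: `s v ^ 2 - s v + 1 = 0` for some `v`.
-/

open Finset

namespace H87FD

/-- stability under inversion -/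
def Inv {Ω : Type*} [Field Ω] {n : ℕ} (T : Fin n → Ω) : Prop :=
  ∃ σ : Equiv.Perm (Fin n), ∀ v, T (σ v) * T v = 1

/-- a permutation which lifts a map of prime order `q`, `q ∤ n`, gives a fixed value -/
theorem fix_of_perm {X : Type*} {n q : ℕ} [hq : Fact q.Prime] (hn : ¬ q ∣ n)
    (π : Equiv.Perm (Fin n)) (T : Fin n → X) (τ : X → X) (h : ∀ v, T (π v) = τ (T v))
    (hτ : ∀ v, τ^[q] (T v) = T v) : ∃ v, τ (T v) = T v := by
  classical
  have hord : orderOf π ≠ 0 := (orderOf_pos π).ne'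
  obtain ⟨a, b, hb, hab⟩ := Nat.exists_eq_pow_mul_and_not_dvd hord q hq.out.ne_one
  have hit : ∀ k : ℕ, ∀ v, T ((π ^ k) v) = τ^[k] (T v) := by
    intro k
    induction k with
    | zero => intro v; rfl
    | succ k ih =>
      intro v
      rw [pow_succ, Equiv.Perm.mul_apply, ih (π v), h v, Function.iterate_succ_apply]
  set f : Function.End (Fin n) := fun v => (π ^ b) v with hf
  have hfpow : ∀ k : ℕ, f ^ k = fun v => (π ^ (b * k)) v := by
    intro k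
    induction k with
    | zero => rw [mul_zero, pow_zero, pow_zero]; rfl
    | succ k ih =>
      rw [pow_succ, ih]
      funext v
      show (π ^ (b * k)) ((π ^ b) v) = _
      rw [← Equiv.Perm.mul_apply, ← pow_add, Nat.mul_succ]
  have h1 : f ^ q ^ a = 1 := by
    rw [hfpow, mul_comm, ← hab, pow_orderOf_eq_one]
    rfl
  have h2 := Equiv.Perm.card_fixedPoints_modEq (p := q) (n := a) h1
  have h3 : Fintype.card (Function.fixedPoints f) ≠ 0 := by
    intro h0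
    rw [h0, Fintype.card_fin] at h2
    exact hn ((Nat.modEq_zero_iff_dvd).mp h2)
  have h4 : Nonempty (Function.fixedPoints f) := Fintype.card_pos_iff.mp (Nat.pos_of_ne_zero h3)
  obtain ⟨v, hv⟩ := h4
  refine ⟨v, ?_⟩
  have h5 : (π ^ b) v = v := hv
  have h6 : Function.IsPeriodicPt τ b (T v) := by
    show τ^[b] (T v) = T v
    rw [← hit b v, h5]
  have h7 : Function.IsPeriodicPt τ q (T v) := hτ v
  have h8 := h6.gcd h7
  have h9 : Nat.gcd b q = 1 := ((Nat.Prime.coprime_iff_not_dvd hq.out).mpr hb).symm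
  rw [h9] at h8
  exact h8

variable {Ω : Type*} [Field Ω] {n : ℕ} {s : Fin n → Ω}

theorem inv_one (h : Inv s) (h0 : ∀ v, s v ≠ 0) :
    ∃ σ : Equiv.Perm (Fin n), ∀ v, s (σ v) = (s v)⁻¹ := by
  obtain ⟨σ, hσ⟩ := h
  exact ⟨σ, fun v => eq_inv_of_mul_eq_one_left (hσ v)⟩

theorem inv_two (h : Inv (fun v => 1 - 1 / s v)) (h0 : ∀ v, s v ≠ 0) :
    ∃ σ : Equiv.Perm (Fin n), ∀ v, s (σ v) = 1 - s v := by
  obtain ⟨σ, hσ⟩ := h
  refine ⟨σ, fun v => ?_⟩
  have h1 := hσ v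
  have a := h0 v
  have b := h0 (σ v)
  field_simp at h1
  linear_combination (-1 : Ω) * h1

theorem inv_three (h : Inv (fun v => 1 / (1 - s v))) (h1 : ∀ v, s v ≠ 1) :
    ∃ σ : Equiv.Perm (Fin n), ∀ v, s (σ v) * (s v - 1) = s v := by
  obtain ⟨σ, hσ⟩ := h
  refine ⟨σ, fun v => ?_⟩
  have h2 := hσ v
  have a : 1 - s v ≠ 0 := fun h => h1 v (by linear_combination -h)
  have b : 1 - s (σ v) ≠ 0 := fun h => h1 (σ v) (by linear_combination -h)
  field_simp at h2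
  linear_combination (-1 : Ω) * h2

/-- the map of order three -/
theorem inv_rot (h : Inv s) (h' : Inv (fun v => 1 - 1 / s v)) (h0 : ∀ v, s v ≠ 0) :
    ∃ σ : Equiv.Perm (Fin n), ∀ v, s (σ v) = 1 - (s v)⁻¹ := by
  obtain ⟨σ, hσ⟩ := inv_one h h0
  obtain ⟨ρ, hρ⟩ := inv_two h' h0
  refine ⟨ρ * σ, fun v => ?_⟩
  rw [Equiv.Perm.mul_apply, hρ, hσ]

/-- `n` odd: `-1` is a value -/
theorem exists_neg_one (hn : Odd n) (h : Inv s) (h0 : ∀ v, s v ≠ 0) (h1 : ∀ v, s v ≠ 1) :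
    ∃ v, s v = -1 := by
  obtain ⟨σ, hσ⟩ := inv_one h h0
  haveI : Fact (Nat.Prime 2) := ⟨Nat.prime_two⟩
  have hn2 : ¬ 2 ∣ n := by
    rw [← even_iff_two_dvd, Nat.not_even_iff_odd]; exact hn
  obtain ⟨v, hv⟩ := fix_of_perm hn2 σ s (fun x => x⁻¹) hσ (fun v => by
    show ((s v)⁻¹)⁻¹ = s v
    exact inv_inv _)
  refine ⟨v, ?_⟩
  have h2 : s v * s v = 1 := by
    have h3 : (s v)⁻¹ = s v := hv
    calc s v * s v = (s v)⁻¹ * s v := by rw [h3]
      _ = 1 := inv_mul_cancel₀ (h0 v)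
  have h4 : (s v - 1) * (s v + 1) = 0 := by linear_combination h2
  rcases mul_eq_zero.mp h4 with h5 | h5
  · exact absurd (by linear_combination h5) (h1 v)
  · linear_combination h5

/-- `3 ∤ n`: a primitive sixth root of unity is a value -/
theorem exists_six_root (hn : ¬ 3 ∣ n) (h : Inv s) (h' : Inv (fun v => 1 - 1 / s v))
    (h0 : ∀ v, s v ≠ 0) (h1 : ∀ v, s v ≠ 1) : ∃ v, s v ^ 2 - s v + 1 = 0 := by
  obtain ⟨σ, hσ⟩ := inv_rot h h' h0
  haveI : Fact (Nat.Prime 3) := ⟨Nat.prime_three⟩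
  obtain ⟨v, hv⟩ := fix_of_perm hn σ s (fun x => 1 - x⁻¹) hσ (fun v => by
    show 1 - (1 - (1 - (s v)⁻¹)⁻¹)⁻¹ = s v
    have a := h0 v
    have b : s v - 1 ≠ 0 := fun h => h1 v (by linear_combination h)
    have e1 : 1 - (s v)⁻¹ = (s v - 1) / s v := by field_simp
    rw [e1, inv_div]
    have e2 : 1 - s v / (s v - 1) = -1 / (s v - 1) := by field_simp; ring
    rw [e2, inv_div]
    field_simp
    ring)
  refine ⟨v, ?_⟩
  have h2 : 1 - (s v)⁻¹ = s v := hv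
  have a := h0 v
  field_simp at h2
  linear_combination (-1 : Ω) * h2

/-- `n = 3`: the values are `-1, 2, 1/2`: every value of a family with `n = 3` stable under the
symmetric group is one of them -/
theorem three_values (hn : n = 3) (h : Inv s) (h' : Inv (fun v => 1 - 1 / s v))
    (h0 : ∀ v, s v ≠ 0) (h1 : ∀ v, s v ≠ 1) (h2 : (2 : Ω) ≠ 0) :
    (∃ v, s v = -1) ∧ (∃ v, s v = 2) ∧ ∃ v, s v = 1 / 2 := by
  obtain ⟨v, hv⟩ := exists_neg_one (by rw [hn]; decide) h h0 h1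
  obtain ⟨σ, hσ⟩ := inv_one h h0
  obtain ⟨ρ, hρ⟩ := inv_two h' h0
  have h3 : s (ρ v) = 2 := by rw [hρ, hv]; norm_num
  refine ⟨⟨v, hv⟩, ⟨ρ v, h3⟩, ⟨σ (ρ v), ?_⟩⟩
  rw [hσ, h3, one_div]

end H87FD
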