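import Mathlib

/-!
# Residue fields and sixth roots of unity
-/

open NumberField

namespace H87FD

/-- a finite field with a root of `x^2 - x + 1`, characteristic not three, has `q ≡ 1 mod 3` -/
theorem card_mod_three (k : Type*) [Field k] [Finite k] (h3 : (3 : k) ≠ 0) (x : k)
    (hx : x ^ 2 - x + 1 = 0) : Nat.card k % 3 = 1 := by
  have hx3 : (-x) ^ 3 = 1 := by linear_combination (-(x + 1)) * hx
  have hx0 : -x ≠ 0 := by
    intro h
    rw [h] at hx3
    simp at hx3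
  have hx1 : -x ≠ 1 := by
    intro h
    have h1 : x = -1 := by linear_combination -h
    rw [h1] at hx
    refine h3 ?_
    linear_combination hx
  set u : kˣ := Units.mk0 (-x) hx0 with hu
  have hu3 : u ^ 3 = 1 := by
    ext
    rw [hu]
    simpa using hx3
  have hu1 : u ≠ 1 := by
    intro h
    have := congrArg Units.val h
    rw [hu] at this
    exact hx1 (by simpa using this)
  haveI : Fact (Nat.Prime 3) := ⟨Nat.prime_three⟩
  have hord : orderOf u = 3 := orderOf_eq_prime hu3 hu1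
  have hdvd : 3 ∣ Nat.card kˣ := by
    rw [← hord]
    exact orderOf_dvd_natCard u
  rw [Nat.card_units] at hdvd
  have hpos : 0 < Nat.card k := Nat.card_pos
  omega

/-- a value of the reduction with `x^2 - x + 1 = 0` gives a residue field with `q ≡ 1 mod 3` -/
theorem exists_resid (K : Type*) [Field K] [NumberField K] (p : ℕ) [hp : Fact p.Prime]
    (hp3 : p ≠ 3) {Ω : Type*} [Field Ω] [CharP Ω p] (ψ : 𝓞 K →+* Ω) (a b : 𝓞 K) (ha : ψ a ≠ 0)
    (hs : (-(ψ b) / ψ a) ^ 2 - (-(ψ b) / ψ a) + 1 = 0) :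
    ∃ P : Ideal (𝓞 K), P.IsPrime ∧ (p : 𝓞 K) ∈ P ∧ Nat.card (𝓞 K ⧸ P) % 3 = 1 := by
  have hPp : (RingHom.ker ψ).IsPrime := RingHom.ker_isPrime ψ
  have hpP : (p : 𝓞 K) ∈ RingHom.ker ψ := by
    rw [RingHom.mem_ker, map_natCast, CharP.cast_eq_zero]
  refine ⟨RingHom.ker ψ, hPp, hpP, ?_⟩
  have hne : RingHom.ker ψ ≠ ⊥ := by
    intro h
    rw [h, Ideal.mem_bot, Nat.cast_eq_zero] at hpP
    exact hp.out.ne_zero hpP
  haveI hmax : (RingHom.ker ψ).IsMaximal := hPp.isMaximal hne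
  letI := Ideal.Quotient.field (RingHom.ker ψ)
  haveI : Finite (𝓞 K ⧸ RingHom.ker ψ) := Ideal.finiteQuotientOfFreeOfNeBot _ hne
  set φ : (𝓞 K ⧸ RingHom.ker ψ) →+* Ω :=
    Ideal.Quotient.lift (RingHom.ker ψ) ψ (fun x hx => hx) with hφ
  have hφm : ∀ x, φ (Ideal.Quotient.mk _ x) = ψ x := fun x => Ideal.Quotient.lift_mk _ _ _
  set x : 𝓞 K ⧸ RingHom.ker ψ :=
    -(Ideal.Quotient.mk (RingHom.ker ψ) b) / (Ideal.Quotient.mk (RingHom.ker ψ) a) with hx
  have hφx : φ x = -(ψ b) / ψ a := by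
    rw [hx, map_div₀, map_neg, hφm, hφm]
  refine card_mod_three _ ?_ x ?_
  · intro h
    have h1 := congrArg φ h
    rw [map_zero, map_ofNat] at h1
    have h2 : ((3 : ℕ) : Ω) = 0 := by exact_mod_cast h1
    rw [CharP.cast_eq_zero_iff Ω p] at h2
    exact hp3 ((Nat.prime_dvd_prime_iff_eq hp.out Nat.prime_three).mp h2)
  · apply φ.injective
    rw [map_add, map_sub, map_pow, map_one, map_zero, hφx]
    exact hs

end H87FD
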