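import Mathlib

/-!
# A Strassmann lemma for Mahler type series

`f s = Σ_r d_r s (s-1) ... (s-r+1)` with `d_r → 0` in an ultrametric field of characteristic
zero, not all `d_r` zero.  Then there are `D` and `C > 0` such that among any `D+1` distinct
natural numbers `≤ S` one has `‖f s‖ ≥ C / S^D`.
-/

open Finset Polynomial Filter Topology

namespace H87FD

/-- Divided differences of integer polynomials are integers. -/
theorem dd_int {F : Type*} [Field F] [CharZero F] (s : Finset ℕ) (P : ℤ[X]) :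
    ∃ z : ℤ, ∑ i ∈ s, ((P.eval (i : ℤ) : ℤ) : F) / ∏ j ∈ s.erase i, ((i : F) - (j : F)) = (z : F) ∧
      (P.natDegree + 1 < s.card → z = 0) ∧ (P.Monic → P.natDegree + 1 = s.card → z = 1) := by
  classical
  set N : ℤ[X] := Lagrange.nodal s (fun i : ℕ => (i : ℤ)) with hN
  have hmon : N.Monic := Lagrange.nodal_monic
  have hdN : N.degree = s.card := Lagrange.degree_nodal
  set R : ℤ[X] := P %ₘ N with hR
  have hdR : R.degree < s.card := by
    rw [← hdN]
    exact Polynomial.degree_modByMonic_lt P hmon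
  have hev : ∀ i ∈ s, R.eval (i : ℤ) = P.eval (i : ℤ) := by
    intro i hi
    have h1 : R + N * (P /ₘ N) = P := Polynomial.modByMonic_add_div P N
    have h2 : N.eval (i : ℤ) = 0 := Lagrange.eval_nodal_at_node (v := fun i : ℕ => (i : ℤ)) hi
    have h3 := congrArg (Polynomial.eval (i : ℤ)) h1
    rw [Polynomial.eval_add, Polynomial.eval_mul, h2, zero_mul, add_zero] at h3
    exact h3
  have hinj : Set.InjOn (fun i : ℕ => (i : F)) s := by
    intro a _ b _ h
    exact Nat.cast_injective h
  set Q : F[X] := R.map (Int.castRingHom F) with hQ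
  have hdQ : Q.degree < s.card := lt_of_le_of_lt Polynomial.degree_map_le hdR
  have hc := Lagrange.coeff_eq_sum hinj hdQ
  refine ⟨R.coeff (s.card - 1), ?_, ?_, ?_⟩
  · have h4 : Q.coeff (s.card - 1) = ((R.coeff (s.card - 1) : ℤ) : F) := by
      rw [hQ, Polynomial.coeff_map]; simp
    rw [← h4, hc]
    refine Finset.sum_congr rfl fun i hi => ?_
    congr 1
    have h5 : Q.eval ((i : ℤ) : F) = ((R.eval (i : ℤ) : ℤ) : F) := by
      rw [hQ, Polynomial.eval_intCast_map]; simp
    have h6 : ((i : ℤ) : F) = (i : F) := by simp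
    rw [h6] at h5
    rw [h5, hev i hi]
  · intro hlt
    have h7 : R = P := by
      rw [hR, Polynomial.modByMonic_eq_self_iff hmon, hdN]
      refine lt_of_le_of_lt Polynomial.degree_le_natDegree ?_
      have : P.natDegree < s.card := by omega
      exact_mod_cast this
    rw [h7]
    exact Polynomial.coeff_eq_zero_of_natDegree_lt (by omega)
  · intro hPm heq
    have h7 : R = P := by
      rw [hR, Polynomial.modByMonic_eq_self_iff hmon, hdN]
      refine lt_of_le_of_lt Polynomial.degree_le_natDegree ?_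
      have : P.natDegree < s.card := by omega
      exact_mod_cast this
    rw [h7]
    have h8 : s.card - 1 = P.natDegree := by omega
    rw [h8]
    exact hPm

theorem strass {F : Type*} [NormedField F] [IsUltrametricDist F] [CharZero F]
    (hl : ∀ n : ℕ, n ≠ 0 → 1 / (n : ℝ) ≤ ‖(n : F)‖)
    (d : ℕ → F) (hd : Tendsto (fun r => ‖d r‖) atTop (𝓝 0)) (hne : ∃ r, d r ≠ 0)
    (f : ℕ → F) (hf : ∀ s, f s = ∑ r ∈ range (s + 1), d r * (s.descFactorial r : F)) :
    ∃ D : ℕ, ∃ C : ℝ, 0 < C ∧ ∀ A : Finset ℕ, A.card = D + 1 → ∀ S : ℕ, (∀ s ∈ A, s ≤ S) →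
      ∃ s ∈ A, C ≤ ‖f s‖ * (S : ℝ) ^ D := by
  classical
  obtain ⟨r0, hr0⟩ := hne
  have hr0' : 0 < ‖d r0‖ := norm_pos_iff.mpr hr0
  -- the largest index with maximal norm
  obtain ⟨R, hR⟩ : ∃ R, ∀ r ≥ R, ‖d r‖ < ‖d r0‖ :=
    eventually_atTop.mp (hd.eventually (gt_mem_nhds hr0'))
  have hr0R : r0 < R := by
    by_contra h
    exact lt_irrefl _ (hR r0 (not_lt.mp h))
  obtain ⟨D0, hD0, hD0m⟩ := Finset.exists_max_image (range R) (fun r => ‖d r‖)
    ⟨r0, mem_range.mpr hr0R⟩
  set T := (range R).filter (fun r => ‖d r‖ = ‖d D0‖) with hT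
  have hTn : T.Nonempty := ⟨D0, by rw [hT, mem_filter]; exact ⟨hD0, rfl⟩⟩
  set D := T.max' hTn with hDdef
  have hDT : D ∈ T := T.max'_mem hTn
  have hDn : ‖d D‖ = ‖d D0‖ := by
    have := hDT; rw [hT, mem_filter] at this; exact this.2
  have hDpos : 0 < ‖d D‖ := by
    rw [hDn]; exact lt_of_lt_of_le hr0' (hD0m r0 (mem_range.mpr hr0R))
  have hgt : ∀ r, D < r → ‖d r‖ < ‖d D‖ := by
    intro r hr
    rcases lt_or_ge r R with h | h
    · have h1 := hD0m r (mem_range.mpr h)
      rcases lt_or_eq_of_le h1 with h2 | h2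
      · rw [hDn]; exact h2
      · exfalso
        have : r ∈ T := by rw [hT, mem_filter]; exact ⟨mem_range.mpr h, h2⟩
        have := T.le_max' r this
        exact absurd this (not_le.mpr hr)
    · have h1 := hR r h
      have h2 := hD0m r0 (mem_range.mpr hr0R)
      rw [hDn]; exact lt_of_lt_of_le h1 h2
  refine ⟨D, ‖d D‖, hDpos, ?_⟩
  intro A hA S hS
  have hAn : A.Nonempty := by rw [← card_pos, hA]; omega
  -- the divided difference
  have key : ∀ r, ∃ z : ℤ,
      ∑ i ∈ A, ((i.descFactorial r : ℕ) : F) / ∏ j ∈ A.erase i, ((i : F) - (j : F)) = (z : F) ∧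
      (r + 1 < A.card → z = 0) ∧ (r + 1 = A.card → z = 1) := by
    intro r
    obtain ⟨z, hz, hz0, hz1⟩ := dd_int (F := F) A (descPochhammer ℤ r)
    have hnd : (descPochhammer ℤ r).natDegree = r := descPochhammer_natDegree ℤ r
    refine ⟨z, ?_, ?_, ?_⟩
    · rw [← hz]
      refine Finset.sum_congr rfl fun i _ => ?_
      rw [descPochhammer_eval_eq_descFactorial]
      simp
    · intro h; exact hz0 (by rw [hnd]; exact h)
    · intro h; exact hz1 (monic_descPochhammer ℤ r) (by rw [hnd]; exact h)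
  choose z hz hz0 hz1 using key
  have hsum : ∑ i ∈ A, f i / ∏ j ∈ A.erase i, ((i : F) - (j : F))
      = ∑ r ∈ range (S + 1), d r * (z r : F) := by
    have h1 : ∀ i ∈ A, f i = ∑ r ∈ range (S + 1), d r * ((i.descFactorial r : ℕ) : F) := by
      intro i hi
      rw [hf i]
      refine Finset.sum_subset ?_ ?_
      · intro r hr; rw [mem_range] at hr ⊢; have := hS i hi; omega
      · intro r _ hr2
        rw [mem_range, not_lt] at hr2
        rw [Nat.descFactorial_eq_zero_iff_lt.mpr (by omega)]; simp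
    rw [Finset.sum_congr rfl (fun i hi => by rw [h1 i hi, Finset.sum_div])]
    rw [Finset.sum_comm]
    refine Finset.sum_congr rfl fun r _ => ?_
    rw [← hz r, Finset.mul_sum]
    refine Finset.sum_congr rfl fun i _ => ?_
    rw [mul_div_assoc]
  have hDS : D ≤ S := by
    have h1 : A ⊆ range (S + 1) := by
      intro s hs; rw [mem_range]; have := hS s hs; omega
    have h2 := card_le_card h1
    rw [hA, card_range] at h2
    omega
  have hnorm : ‖∑ r ∈ range (S + 1), d r * (z r : F)‖ = ‖d D‖ := by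
    rw [← Finset.add_sum_erase (range (S + 1)) _ (mem_range.mpr (Nat.lt_succ_of_le hDS))]
    rw [hz1 D (by rw [hA]), Int.cast_one, mul_one]
    have hsm : ‖∑ r ∈ (range (S + 1)).erase D, d r * (z r : F)‖ < ‖d D‖ := by
      rcases ((range (S + 1)).erase D).eq_empty_or_nonempty with he | hne
      · rw [he, sum_empty, norm_zero]; exact hDpos
      · obtain ⟨r, hr, hle⟩ := IsUltrametricDist.exists_norm_finset_sum_le_of_nonempty hne
          (fun r => d r * (z r : F))
        refine lt_of_le_of_lt hle ?_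
        rw [mem_erase] at hr
        rcases lt_or_gt_of_ne hr.1 with h | h
        · rw [hz0 r (by rw [hA]; omega)]; simpa using hDpos
        · rw [norm_mul]
          have h3 : ‖(z r : F)‖ ≤ 1 := IsUltrametricDist.norm_intCast_le_one F (z r)
          calc ‖d r‖ * ‖(z r : F)‖ ≤ ‖d r‖ * 1 := mul_le_mul_of_nonneg_left h3 (norm_nonneg _)
            _ = ‖d r‖ := mul_one _
            _ < ‖d D‖ := hgt r h
    rw [IsUltrametricDist.norm_add_eq_max_of_norm_ne_norm (ne_of_gt hsm)]
    exact max_eq_left hsm.le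
  obtain ⟨i, hi, hle⟩ := IsUltrametricDist.exists_norm_finset_sum_le_of_nonempty hAn
    (fun i => f i / ∏ j ∈ A.erase i, ((i : F) - (j : F)))
  rw [hsum, hnorm] at hle
  refine ⟨i, hi, hle.trans ?_⟩
  rw [norm_div, norm_prod, div_eq_mul_inv]
  refine mul_le_mul_of_nonneg_left ?_ (norm_nonneg _)
  rw [← Finset.prod_inv_distrib]
  have hcard : (A.erase i).card = D := by rw [card_erase_of_mem hi, hA]; omega
  calc ∏ j ∈ A.erase i, ‖(i : F) - (j : F)‖⁻¹ ≤ ∏ _j ∈ A.erase i, (S : ℝ) := by
        refine Finset.prod_le_prod (fun j _ => inv_nonneg.mpr (norm_nonneg _)) ?_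
        intro j hj
        rw [mem_erase] at hj
        have hiS := hS i hi
        have hjS := hS j hj.2
        have hcore : ∀ a b : ℕ, a < b → b ≤ S → ‖(b : F) - (a : F)‖⁻¹ ≤ (S : ℝ) := by
          intro a b hab hbS
          have h1 : (b : F) - (a : F) = ((b - a : ℕ) : F) := by
            rw [Nat.cast_sub hab.le]
          rw [h1]
          have h2 := hl (b - a) (by omega)
          have h3 : (0 : ℝ) < ((b - a : ℕ) : ℝ) := by exact_mod_cast (by omega : 0 < b - a)
          have h4 : 0 < 1 / ((b - a : ℕ) : ℝ) := by positivity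
          calc ‖((b - a : ℕ) : F)‖⁻¹ ≤ (1 / ((b - a : ℕ) : ℝ))⁻¹ := inv_anti₀ h4 h2
            _ = ((b - a : ℕ) : ℝ) := by rw [one_div, inv_inv]
            _ ≤ (S : ℝ) := by exact_mod_cast (by omega : b - a ≤ S)
        rcases lt_or_gt_of_ne hj.1 with h | h
        · exact hcore j i h hiS
        · rw [norm_sub_rev]; exact hcore i j h hjS
    _ = (S : ℝ) ^ D := by rw [prod_const, hcard]

end H87FD
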