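import Mathlib

/-!
# The functional `X^m ↦ (t d/dt)^m 1/(1-t)` in the variable `w = 1/(1-t)`

`GG 0 = X`, `GG (m+1) = X (X-1) GG m'`; `gv w m` is the value of `GG m` at `w`;
`Lam w : R[X] → R` is the linear functional `X^m ↦ gv w m`.  With `t w = w - 1`:
* `Lam_shift`: `(w - 1) Lam (P(X+1)) = w (Lam P - P(0))`;
* `fun_unique`: a functional `D` with `t D(P(X+1)) = D(P)` is zero;
* `Lam_dist`: `Lam_w(P) = Σ_{b<l} t^b Lam_{w'}(P(b + l X))` with `w' (1 - t^l) = 1`;
* `norm_Lam_le`: if `‖w‖ ≤ 1` and `‖P(j)‖ ≤ ε` for all natural `j`, then `‖Lam P‖ ≤ ε`.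
-/

open Polynomial Finset

namespace H87FD

/-- `GG m (1/(1-t)) = (t d/dt)^m 1/(1-t)` -/
noncomputable def GG : ℕ → ℤ[X]
  | 0 => X
  | (m + 1) => X * (X - 1) * derivative (GG m)

/-- the value of `GG m` at `w` -/
noncomputable def gv {R : Type*} [CommRing R] (w : R) (m : ℕ) : R := aeval w (GG m)

theorem gv_zero {R : Type*} [CommRing R] (w : R) : gv w 0 = w := by
  simp [gv, GG]

theorem map_gv {R S : Type*} [CommRing R] [CommRing S] (φ : R →+* S) (w : R) (m : ℕ) :
    φ (gv w m) = gv (φ w) m := by
  exact (aeval_algHom_apply φ.toIntAlgHom w (GG m)).symm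

theorem GG_shift (m : ℕ) :
    (X - 1 : ℤ[X]) * ∑ j ∈ range (m + 1), (m.choose j : ℤ[X]) * GG j =
      X * GG m - (if m = 0 then X else 0) := by
  induction m with
  | zero => simp [GG]; ring
  | succ m ih =>
    set S : ℤ[X] := ∑ j ∈ range (m + 1), (m.choose j : ℤ[X]) * GG j with hS
    have h1 : ∑ j ∈ range (m + 1 + 1), ((m + 1).choose j : ℤ[X]) * GG j =
        S + X * (X - 1) * derivative S := by
      have h := Finset.sum_choose_succ_mul (R := ℤ[X]) (fun i _ => GG i) m
      rw [h, hS, derivative_sum, Finset.mul_sum]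
      congr 1
      refine Finset.sum_congr rfl fun j _ => ?_
      rw [derivative_mul, derivative_natCast, zero_mul, zero_add]
      show _ * (X * (X - 1) * derivative (GG j)) = _
      ring
    have h2 := congrArg derivative ih
    have h3 : derivative (if m = 0 then (X : ℤ[X]) else 0) = if m = 0 then 1 else 0 := by
      split_ifs <;> simp
    rw [derivative_mul, derivative_sub, derivative_sub, derivative_mul, h3] at h2
    simp only [derivative_X, derivative_one, sub_zero, one_mul] at h2
    rw [h1, if_neg (Nat.succ_ne_zero m), sub_zero]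
    have h4 : (GG (m + 1)) = X * (X - 1) * derivative (GG m) := rfl
    rw [h4]
    have h5 : (X : ℤ[X]) * (if m = 0 then (1 : ℤ[X]) else 0) = if m = 0 then X else 0 := by
      split_ifs <;> simp
    have h6 : (X - 1 : ℤ[X]) * (X * (X - 1) * derivative S) =
        X * (X - 1) * (GG m + X * derivative (GG m) - (if m = 0 then 1 else 0)) - X * ((X - 1) * S)
        := by
      rw [← h2]; ring
    rw [mul_add, h6, ih]
    have h7 : (X : ℤ[X]) * (X - 1) * (GG m + X * derivative (GG m) - (if m = 0 then 1 else 0)) =
        X * (X - 1) * (GG m + X * derivative (GG m)) - (X - 1) * (X * if m = 0 then 1 else 0) := by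
      ring
    rw [h7, h5]
    ring

/-- the shift identity for the values -/
theorem gv_shift {R : Type*} [CommRing R] (w : R) (m : ℕ) :
    (w - 1) * ∑ j ∈ range (m + 1), (m.choose j : R) * gv w j =
      w * gv w m - (if m = 0 then w else 0) := by
  have h := congrArg (aeval w : ℤ[X] →ₐ[ℤ] R) (GG_shift m)
  have h0 : (aeval w : ℤ[X] →ₐ[ℤ] R) (if m = 0 then X else 0) = if m = 0 then w else 0 := by
    split_ifs <;> simp
  rw [map_mul, map_sub, map_sub, map_mul, map_sum, h0] at h
  simp only [aeval_X, map_one, map_mul, map_natCast] at h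
  exact h

/-- the functional `X^m ↦ gv w m` -/
noncomputable def Lam {R : Type*} [CommRing R] (w : R) : R[X] →ₗ[R] R :=
  Polynomial.lsum fun m => LinearMap.mulRight R (gv w m)

theorem Lam_monomial {R : Type*} [CommRing R] (w a : R) (m : ℕ) :
    Lam w (monomial m a) = a * gv w m := by
  unfold Lam
  rw [Polynomial.lsum_apply, sum_monomial_index]
  · rfl
  · simp

theorem Lam_X_pow {R : Type*} [CommRing R] (w : R) (m : ℕ) : Lam w (X ^ m) = gv w m := by
  rw [← monomial_one_right_eq_X_pow, Lam_monomial, one_mul]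

theorem Lam_C_mul {R : Type*} [CommRing R] (w a : R) (P : R[X]) :
    Lam w (C a * P) = a * Lam w P := by
  rw [← smul_eq_C_mul, map_smul, smul_eq_mul]

/-- the shift identity -/
theorem Lam_shift {R : Type*} [CommRing R] (w : R) (P : R[X]) :
    (w - 1) * Lam w (taylor 1 P) = w * (Lam w P - P.eval 0) := by
  induction P using Polynomial.induction_on' with
  | add p q hp hq =>
    rw [map_add, map_add, map_add, eval_add, mul_add, hp, hq]; ring
  | monomial m a =>
    rw [taylor_monomial, Lam_C_mul, Lam_monomial]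
    have h1 : ((X : R[X]) + C 1) ^ m = ∑ j ∈ range (m + 1), C ((m.choose j : ℕ) : R) * X ^ j := by
      rw [add_pow]
      refine Finset.sum_congr rfl fun j _ => ?_
      simp; ring
    have h2 : Lam w (((X : R[X]) + C 1) ^ m) = ∑ j ∈ range (m + 1), (m.choose j : R) * gv w j := by
      rw [h1, map_sum]
      refine Finset.sum_congr rfl fun j _ => ?_
      rw [Lam_C_mul, Lam_X_pow]
    rw [h2, mul_left_comm, gv_shift]
    have h3 : (monomial m a).eval 0 = if m = 0 then a else 0 := by
      rcases Nat.eq_zero_or_pos m with h | h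
      · subst h; simp
      · rw [if_neg (by omega), eval_monomial, zero_pow (by omega), mul_zero]
    rw [h3]
    split_ifs <;> ring

/-- a functional with `t D(P(X+1)) = D(P)` is zero if `1 - t` is invertible -/
theorem fun_unique {R : Type*} [CommRing R] (t w : R) (hw : w * (1 - t) = 1) (D : R[X] →ₗ[R] R)
    (hD : ∀ P, t * D (taylor 1 P) = D P) : D = 0 := by
  have key : ∀ m : ℕ, D (X ^ m) = 0 := by
    intro m
    induction m using Nat.strong_induction_on with
    | _ m ih =>
      have h1 : ((X : R[X]) + C 1) ^ m =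
          X ^ m + ∑ j ∈ range m, C ((m.choose j : ℕ) : R) * X ^ j := by
        rw [add_pow, Finset.sum_range_succ, add_comm]
        congr 1
        · simp
        · refine Finset.sum_congr rfl fun j _ => ?_
          simp; ring
      have h2 := hD (X ^ m)
      rw [taylor_X_pow, h1, map_add, map_sum] at h2
      have h3 : ∑ j ∈ range m, D (C ((m.choose j : ℕ) : R) * X ^ j) = 0 := by
        refine Finset.sum_eq_zero fun j hj => ?_
        rw [← smul_eq_C_mul, map_smul, ih j (mem_range.mp hj), smul_zero]
      rw [h3, add_zero] at h2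
      have h4 : (1 - t) * D (X ^ m) = 0 := by linear_combination -h2
      calc D (X ^ m) = (w * (1 - t)) * D (X ^ m) := by rw [hw, one_mul]
        _ = w * ((1 - t) * D (X ^ m)) := by ring
        _ = 0 := by rw [h4, mul_zero]
  refine LinearMap.ext fun P => ?_
  induction P using Polynomial.induction_on' with
  | add p q hp hq => rw [map_add, hp, hq]; simp
  | monomial m a =>
    rw [← C_mul_X_pow_eq_monomial, ← smul_eq_C_mul, map_smul, key m]; simp

/-- the affine substitution `P ↦ P(b + l X)` -/
noncomputable def aff {R : Type*} [CommRing R] (b l : R) : R[X] →ₗ[R] R[X] :=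
  (Polynomial.aeval (C b + C l * X)).toLinearMap

theorem aff_apply {R : Type*} [CommRing R] (b l : R) (P : R[X]) :
    aff b l P = P.comp (C b + C l * X) := by
  unfold aff
  rw [AlgHom.toLinearMap_apply, Polynomial.comp_eq_aeval]

theorem aff_pow {R : Type*} [CommRing R] (b l : R) (m : ℕ) :
    aff b l (X ^ m) = (C b + C l * X) ^ m := by
  rw [aff_apply, X_pow_comp]

theorem aff_taylor {R : Type*} [CommRing R] (b l : R) (P : R[X]) :
    aff b l (taylor 1 P) = aff (b + 1) l P := by
  rw [aff_apply, aff_apply, taylor_apply, comp_assoc]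
  congr 1
  simp [C_add]; ring

theorem taylor_aff {R : Type*} [CommRing R] (b l : R) (P : R[X]) :
    taylor 1 (aff b l P) = aff (b + l) l P := by
  rw [aff_apply, aff_apply, taylor_apply, comp_assoc]
  congr 1
  simp [C_add]; ring

theorem eval_aff {R : Type*} [CommRing R] (b l x : R) (P : R[X]) :
    (aff b l P).eval x = P.eval (b + l * x) := by
  rw [aff_apply, eval_comp]; simp

/-- the distribution relation -/
theorem Lam_dist {R : Type*} [CommRing R] (t w w' : R) (hw : w * (1 - t) = 1) (l : ℕ)
    (hw' : w' * (1 - t ^ l) = 1) (P : R[X]) :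
    Lam w P = ∑ b ∈ range l, t ^ b * Lam w' (aff (b : R) l P) := by
  have hstep : ∀ Q : R[X], t * Lam w (taylor 1 Q) = Lam w Q - Q.eval 0 := by
    intro Q
    have h := Lam_shift w Q
    have ht : w - 1 = w * t := by linear_combination hw
    rw [ht] at h
    calc t * Lam w (taylor 1 Q) = (w * (1 - t)) * (t * Lam w (taylor 1 Q)) := by
          rw [hw, one_mul]
      _ = (1 - t) * (w * t * Lam w (taylor 1 Q)) := by ring
      _ = (1 - t) * (w * (Lam w Q - Q.eval 0)) := by rw [h]
      _ = (w * (1 - t)) * (Lam w Q - Q.eval 0) := by ring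
      _ = Lam w Q - Q.eval 0 := by rw [hw, one_mul]
  have hstep' : ∀ Q : R[X], t ^ l * Lam w' (taylor 1 Q) = Lam w' Q - Q.eval 0 := by
    intro Q
    have h := Lam_shift w' Q
    have ht : w' - 1 = w' * t ^ l := by linear_combination hw'
    rw [ht] at h
    calc t ^ l * Lam w' (taylor 1 Q) = (w' * (1 - t ^ l)) * (t ^ l * Lam w' (taylor 1 Q)) := by
          rw [hw', one_mul]
      _ = (1 - t ^ l) * (w' * t ^ l * Lam w' (taylor 1 Q)) := by ring
      _ = (1 - t ^ l) * (w' * (Lam w' Q - Q.eval 0)) := by rw [h]
      _ = (w' * (1 - t ^ l)) * (Lam w' Q - Q.eval 0) := by ring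
      _ = Lam w' Q - Q.eval 0 := by rw [hw', one_mul]
  set D : R[X] →ₗ[R] R :=
    Lam w - ∑ b ∈ range l, t ^ b • (Lam w').comp (aff (b : R) l) with hDdef
  have hDval : ∀ Q, D Q = Lam w Q - ∑ b ∈ range l, t ^ b * Lam w' (aff (b : R) l Q) := by
    intro Q
    rw [hDdef]
    simp [LinearMap.sub_apply, LinearMap.sum_apply]
  have hD : ∀ Q, t * D (taylor 1 Q) = D Q := by
    intro Q
    rw [hDval, hDval, mul_sub, hstep, Finset.mul_sum]
    have h1 : ∀ b ∈ range l, t * (t ^ b * Lam w' (aff (b : R) l (taylor 1 Q))) =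
        t ^ (b + 1) * Lam w' (aff ((b + 1 : ℕ) : R) l Q) := by
      intro b _
      rw [aff_taylor]; push_cast; ring
    rw [Finset.sum_congr rfl h1]
    have h2 := Finset.sum_range_succ (fun b => t ^ b * Lam w' (aff (b : R) l Q)) l
    have h3 := Finset.sum_range_succ' (fun b => t ^ b * Lam w' (aff (b : R) l Q)) l
    have h4 : t ^ l * Lam w' (aff (l : R) l Q) =
        Lam w' (aff (0 : R) l Q) - Q.eval 0 := by
      have h5 := hstep' (aff (0 : R) l Q)
      rw [taylor_aff, zero_add, eval_aff] at h5
      simpa using h5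
    rw [h4] at h2
    rw [h3] at h2
    simp only [pow_zero, Nat.cast_zero, one_mul] at h2
    linear_combination (-1 : R) * h2
  have h := fun_unique t w hw D hD
  have h5 := hDval P
  rw [h] at h5
  have h6 : (0 : R) = Lam w P - ∑ b ∈ range l, t ^ b * Lam w' (aff (b : R) l P) := by
    simpa using h5
  linear_combination -h6

theorem norm_sub_le_max {F : Type*} [NormedField F] [IsUltrametricDist F] (a b : F) :
    ‖a - b‖ ≤ max ‖a‖ ‖b‖ := by
  have h := IsUltrametricDist.norm_add_le_max a (-b)
  rw [norm_neg, ← sub_eq_add_neg] at h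
  exact h

/-- the functional does not increase the sup norm over the natural numbers -/
theorem norm_Lam_le {F : Type*} [NormedField F] [IsUltrametricDist F] (w : F) (hw : ‖w‖ ≤ 1)
    (ε : ℝ) (P : F[X]) (hP : ∀ j : ℕ, ‖P.eval (j : F)‖ ≤ ε) : ‖Lam w P‖ ≤ ε := by
  have key : ∀ n : ℕ, ∀ P : F[X], P.degree < n → (∀ j : ℕ, ‖P.eval (j : F)‖ ≤ ε) →
      ‖Lam w P‖ ≤ ε := by
    intro n
    induction n with
    | zero =>
      intro P hd hP
      have h0 : P = 0 := by
        rw [← degree_eq_bot]
        exact Nat.WithBot.lt_zero_iff.mp (by simpa using hd)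
      have := hP 0
      rw [h0] at this ⊢
      simpa using this
    | succ n ih =>
      intro P hd hP
      rcases eq_or_ne P 0 with h0 | h0
      · have := hP 0
        rw [h0] at this ⊢
        simpa using this
      · have hw1 : ‖w - 1‖ ≤ 1 := by
          refine (norm_sub_le_max _ _).trans ?_
          rw [norm_one]
          exact max_le hw le_rfl
        set Q : F[X] := taylor 1 P - P with hQ
        have hQd : Q.degree < n := by
          have h1 : Q.degree < P.degree := by
            rw [hQ, ← degree_taylor P 1]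
            refine degree_sub_lt_left (degree_taylor P 1) ?_ ?_
            · rwa [Ne, taylor_eq_zero]
            · exact leadingCoeff_taylor _ _
          have h2 : P.degree ≤ n := by
            rw [degree_eq_natDegree h0] at hd ⊢
            have : P.natDegree < n + 1 := by exact_mod_cast hd
            exact_mod_cast Nat.lt_succ_iff.mp this
          exact lt_of_lt_of_le h1 h2
        have hQv : ∀ j : ℕ, ‖Q.eval (j : F)‖ ≤ ε := by
          intro j
          rw [hQ, eval_sub, taylor_eval]
          refine (norm_sub_le_max _ _).trans (max_le ?_ (hP j))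
          have := hP (j + 1)
          push_cast at this
          exact this
        have h3 := ih Q hQd hQv
        have h4 : Lam w P = w * P.eval 0 + (w - 1) * Lam w Q := by
          rw [hQ, map_sub]
          have := Lam_shift w P
          linear_combination (-1 : F) * this
        rw [h4]
        have hε : 0 ≤ ε := (norm_nonneg _).trans (hP 0)
        refine (IsUltrametricDist.norm_add_le_max _ _).trans (max_le ?_ ?_)
        · rw [norm_mul]
          have h5 := hP 0
          rw [Nat.cast_zero] at h5
          calc ‖w‖ * ‖P.eval 0‖ ≤ 1 * ε := mul_le_mul hw h5 (norm_nonneg _) zero_le_one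
            _ = ε := one_mul _
        · rw [norm_mul]
          calc ‖w - 1‖ * ‖Lam w Q‖ ≤ 1 * ε := mul_le_mul hw1 h3 (norm_nonneg _) zero_le_one
            _ = ε := one_mul _
  rcases eq_or_ne P 0 with h0 | h0
  · exact key 0 P (by rw [h0, degree_zero]; exact bot_lt_iff_ne_bot.mpr (by simp)) hP
  · refine key (P.natDegree + 1) P ?_ hP
    rw [degree_eq_natDegree h0]
    exact_mod_cast Nat.lt_succ_self _

theorem norm_gv_le {F : Type*} [NormedField F] [IsUltrametricDist F] (w : F) (hw : ‖w‖ ≤ 1)
    (m : ℕ) : ‖gv w m‖ ≤ 1 := by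
  rw [← Lam_X_pow]
  refine norm_Lam_le w hw 1 _ fun j => ?_
  rw [eval_pow, eval_X, norm_pow]
  exact pow_le_one₀ (norm_nonneg _) (IsUltrametricDist.norm_natCast_le_one F j)

end H87FD
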