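import Pool.Agent.H87.FD.Lam
import Pool.Agent.H87.FD.Strass

/-!
# The `l`-adic half of the Skolem step
-/

open Polynomial Finset Filter Topology

namespace H87FD

variable {F : Type*} [NormedField F] [IsUltrametricDist F]

theorem norm_l_lt {l : ℕ} [hl : Fact l.Prime] (hlF : ‖(l : F)‖ = 1 / (l : ℝ)) : ‖(l : F)‖ < 1 := by
  rw [hlF, div_lt_one (by exact_mod_cast hl.out.pos)]
  exact_mod_cast hl.out.one_lt

/-- integers prime to `l` have norm one -/
theorem norm_coprime {l : ℕ} [hl : Fact l.Prime] (hlF : ‖(l : F)‖ = 1 / (l : ℝ)) (n : ℕ)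
    (hn : ¬ l ∣ n) : ‖(n : F)‖ = 1 := by
  refine le_antisymm (IsUltrametricDist.norm_natCast_le_one F n) ?_
  have hco : Nat.Coprime n l := ((Nat.Prime.coprime_iff_not_dvd hl.out).mpr hn).symm
  have hb : (n : ℤ) * Nat.gcdA n l + l * Nat.gcdB n l = 1 := by
    have := Nat.gcd_eq_gcd_ab n l
    rw [hco] at this
    rw [← this]; simp
  have hb' : (n : F) * (Nat.gcdA n l : F) + (l : F) * (Nat.gcdB n l : F) = 1 := by
    exact_mod_cast congrArg (Int.cast : ℤ → F) hb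
  by_contra hlt
  rw [not_le] at hlt
  have h1 : ‖(n : F) * (Nat.gcdA n l : F) + (l : F) * (Nat.gcdB n l : F)‖ < 1 := by
    refine lt_of_le_of_lt (IsUltrametricDist.norm_add_le_max _ _) (max_lt ?_ ?_)
    · rw [norm_mul]
      calc ‖(n : F)‖ * ‖(Nat.gcdA n l : F)‖ ≤ ‖(n : F)‖ * 1 :=
            mul_le_mul_of_nonneg_left (IsUltrametricDist.norm_intCast_le_one F _) (norm_nonneg _)
        _ = ‖(n : F)‖ := mul_one _
        _ < 1 := hlt
    · rw [norm_mul]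
      calc ‖(l : F)‖ * ‖(Nat.gcdB n l : F)‖ ≤ ‖(l : F)‖ * 1 :=
            mul_le_mul_of_nonneg_left (IsUltrametricDist.norm_intCast_le_one F _) (norm_nonneg _)
        _ = ‖(l : F)‖ := mul_one _
        _ < 1 := norm_l_lt hlF
  rw [hb', norm_one] at h1
  exact lt_irrefl _ h1

/-- the norm of a natural number -/
theorem norm_nat {l : ℕ} [hl : Fact l.Prime] (hlF : ‖(l : F)‖ = 1 / (l : ℝ)) (n : ℕ)
    (hn : n ≠ 0) : ‖(n : F)‖ = (1 / (l : ℝ)) ^ (padicValNat l n) := by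
  obtain ⟨k, m, hm, hnk⟩ := Nat.exists_eq_pow_mul_and_not_dvd hn l hl.out.ne_one
  have hv : padicValNat l n = k := by
    rw [hnk, padicValNat.mul (pow_ne_zero _ hl.out.ne_zero) (by rintro rfl; simp at hm),
      padicValNat.prime_pow, padicValNat.eq_zero_of_not_dvd hm, add_zero]
  rw [hv, hnk]
  push_cast
  rw [norm_mul, norm_pow, hlF, norm_coprime hlF m hm, mul_one]

theorem norm_nat_ge {l : ℕ} [hl : Fact l.Prime] (hlF : ‖(l : F)‖ = 1 / (l : ℝ)) (n : ℕ)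
    (hn : n ≠ 0) : 1 / (n : ℝ) ≤ ‖(n : F)‖ := by
  rw [norm_nat hlF n hn, one_div, one_div, inv_pow]
  have h1 : l ^ padicValNat l n ≤ n := Nat.le_of_dvd (Nat.pos_of_ne_zero hn) pow_padicValNat_dvd
  have h2 : (0 : ℝ) < (l : ℝ) ^ padicValNat l n := by
    have : (0 : ℝ) < l := by exact_mod_cast hl.out.pos
    positivity
  refine inv_anti₀ h2 ?_
  exact_mod_cast h1

/-- `1 - T^l` is a unit if `T` is integral and `1 - T` is a unit -/
theorem norm_one_sub_pow {l : ℕ} [hl : Fact l.Prime] (hlF : ‖(l : F)‖ = 1 / (l : ℝ)) (T : F)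
    (hT : ‖T‖ ≤ 1) (h1 : ‖1 - T‖ = 1) : ‖1 - T ^ l‖ = 1 := by
  have h2 := add_pow_prime_eq hl.out (1 - T) T
  rw [sub_add_cancel, one_pow] at h2
  set s0 : F := ∑ k ∈ Finset.Ioo 0 l, (1 - T) ^ (k - 1) * T ^ (l - k - 1) *
    ((l.choose k / l : ℕ) : F) with hs0
  set s : F := (1 - T) * T * s0 with hs
  have h3 : 1 - T ^ l = (1 - T) ^ l + l * s := by rw [hs]; linear_combination h2
  have h4' : ‖s0‖ ≤ 1 := by
    rw [hs0]
    refine IsUltrametricDist.norm_sum_le_of_forall_le_of_nonneg zero_le_one fun k _ => ?_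
    rw [norm_mul, norm_mul, norm_pow, norm_pow, h1, one_pow, one_mul]
    calc ‖T‖ ^ (l - k - 1) * ‖((l.choose k / l : ℕ) : F)‖ ≤ 1 * 1 :=
          mul_le_mul (pow_le_one₀ (norm_nonneg _) hT) (IsUltrametricDist.norm_natCast_le_one F _)
            (norm_nonneg _) zero_le_one
      _ = 1 := one_mul _
  have h4 : ‖s‖ ≤ 1 := by
    rw [hs, norm_mul, norm_mul, h1, one_mul]
    calc ‖T‖ * ‖s0‖ ≤ 1 * 1 := mul_le_mul hT h4' (norm_nonneg _) zero_le_one
      _ = 1 := one_mul _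
  have h5 : ‖(l : F) * s‖ < 1 := by
    rw [norm_mul]
    calc ‖(l : F)‖ * ‖s‖ ≤ ‖(l : F)‖ * 1 := mul_le_mul_of_nonneg_left h4 (norm_nonneg _)
      _ = ‖(l : F)‖ := mul_one _
      _ < 1 := norm_l_lt hlF
  have h6 : ‖(1 - T) ^ l‖ = 1 := by rw [norm_pow, h1, one_pow]
  rw [h3, IsUltrametricDist.norm_add_eq_max_of_norm_ne_norm (by rw [h6]; exact (ne_of_lt h5).symm),
    h6]
  exact max_eq_left h5.le

/-- all the powers `T^(l^i)` -/
theorem norm_one_sub_pow_pow {l : ℕ} [hl : Fact l.Prime] (hlF : ‖(l : F)‖ = 1 / (l : ℝ)) (T : F)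
    (hT : ‖T‖ ≤ 1) (h1 : ‖1 - T‖ = 1) (i : ℕ) : ‖1 - T ^ (l ^ i)‖ = 1 := by
  induction i with
  | zero => simpa using h1
  | succ i ih =>
    rw [pow_succ, pow_mul]
    refine norm_one_sub_pow hlF _ ?_ ih
    rw [norm_pow]
    exact pow_le_one₀ (norm_nonneg _) hT

/-- the part of `gv w m` prime to `l` -/
noncomputable def hh (l : ℕ) (t w' : F) (m : ℕ) : F :=
  ∑ b ∈ Finset.Ico 1 l, t ^ b * Lam w' (aff (b : F) l (X ^ m))

theorem gv_eq (l : ℕ) (hl : 1 ≤ l) (t w w' : F) (hw : w * (1 - t) = 1)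
    (hw' : w' * (1 - t ^ l) = 1) (m : ℕ) :
    gv w m = (l : F) ^ m * gv w' m + hh l t w' m := by
  rw [← Lam_X_pow w m, Lam_dist t w w' hw l hw' (X ^ m), hh, Finset.range_eq_Ico,
    Finset.sum_eq_sum_Ico_succ_bot (by omega)]
  congr 1
  rw [pow_zero, one_mul, Nat.cast_zero, aff_pow, C_0, zero_add, mul_pow, ← C_pow, Lam_C_mul,
    Lam_X_pow]

/-- the Mahler coefficients on a class modulo `l - 1` -/
noncomputable def del (l : ℕ) (t w' : F) (c r : ℕ) : F :=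
  ∑ b ∈ Finset.Ico 1 l, t ^ b *
    Lam w' ((C (b : F) + C (l : F) * X) ^ c * ((C (b : F) + C (l : F) * X) ^ (l - 1) - 1) ^ r)

theorem hh_mahler (l : ℕ) (t w' : F) (c s : ℕ) :
    hh l t w' (c + (l - 1) * s) = ∑ r ∈ range (s + 1), (s.choose r : F) * del l t w' c r := by
  unfold hh del
  simp_rw [Finset.mul_sum]
  rw [Finset.sum_comm]
  refine Finset.sum_congr rfl fun b _ => ?_
  rw [aff_pow]
  set A : F[X] := C (b : F) + C (l : F) * X with hA
  have h1 : A ^ (c + (l - 1) * s) =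
      ∑ r ∈ range (s + 1), C ((s.choose r : ℕ) : F) * (A ^ c * (A ^ (l - 1) - 1) ^ r) := by
    have h2 : A ^ ((l - 1) * s) = ((A ^ (l - 1) - 1) + 1) ^ s := by
      rw [sub_add_cancel, ← pow_mul]
    rw [pow_add, h2, add_pow (A ^ (l - 1) - 1) 1 s, Finset.mul_sum]
    refine Finset.sum_congr rfl fun r _ => ?_
    simp; ring
  rw [h1, map_sum, Finset.mul_sum]
  refine Finset.sum_congr rfl fun r _ => ?_
  rw [Lam_C_mul]; ring

theorem norm_del_le {l : ℕ} [hl : Fact l.Prime] (hlF : ‖(l : F)‖ = 1 / (l : ℝ)) (t w' : F)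
    (ht : ‖t‖ ≤ 1) (hw' : ‖w'‖ ≤ 1) (c r : ℕ) : ‖del l t w' c r‖ ≤ (1 / (l : ℝ)) ^ r := by
  have hpos : (0 : ℝ) ≤ 1 / (l : ℝ) := by positivity
  unfold del
  refine IsUltrametricDist.norm_sum_le_of_forall_le_of_nonneg (pow_nonneg hpos r) fun b hb => ?_
  rw [Finset.mem_Ico] at hb
  rw [norm_mul, norm_pow]
  have h1 : ‖Lam w' ((C (b : F) + C (l : F) * X) ^ c *
      ((C (b : F) + C (l : F) * X) ^ (l - 1) - 1) ^ r)‖ ≤ (1 / (l : ℝ)) ^ r := by
    refine norm_Lam_le w' hw' _ _ fun j => ?_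
    have h2 : ((C (b : F) + C (l : F) * X) : F[X]).eval (j : F) = ((b + l * j : ℕ) : F) := by
      simp
    rw [eval_mul, eval_pow, eval_pow, eval_sub, eval_pow, eval_one, h2, norm_mul, norm_pow,
      norm_pow]
    have h3 : ¬ l ∣ (b + l * j) := by
      intro h
      have : l ∣ b := (Nat.dvd_add_left (Dvd.intro j rfl)).mp h
      exact absurd (Nat.le_of_dvd (by omega) this) (by omega)
    have h4 : ‖(((b + l * j : ℕ) : F)) ^ (l - 1) - 1‖ ≤ 1 / (l : ℝ) := by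
      have h5 : (l : ℤ) ∣ ((b + l * j : ℕ) : ℤ) ^ (l - 1) - 1 := by
        have h6 : IsCoprime ((b + l * j : ℕ) : ℤ) (l : ℤ) := by
          rw [Nat.isCoprime_iff_coprime]
          exact ((Nat.Prime.coprime_iff_not_dvd hl.out).mpr h3).symm
        exact (Int.ModEq.pow_card_sub_one_eq_one hl.out h6).symm.dvd
      obtain ⟨q, hq⟩ := h5
      have h7 : (((b + l * j : ℕ) : F)) ^ (l - 1) - 1 = (l : F) * (q : F) := by
        exact_mod_cast congrArg (Int.cast : ℤ → F) hq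
      rw [h7, norm_mul, hlF]
      calc 1 / (l : ℝ) * ‖(q : F)‖ ≤ 1 / (l : ℝ) * 1 :=
            mul_le_mul_of_nonneg_left (IsUltrametricDist.norm_intCast_le_one F q) hpos
        _ = _ := mul_one _
    calc ‖((b + l * j : ℕ) : F)‖ ^ c * ‖(((b + l * j : ℕ) : F)) ^ (l - 1) - 1‖ ^ r
        ≤ 1 * (1 / (l : ℝ)) ^ r := by
          refine mul_le_mul ?_ (pow_le_pow_left₀ (norm_nonneg _) h4 r)
            (pow_nonneg (norm_nonneg _) r) zero_le_one
          exact pow_le_one₀ (norm_nonneg _) (IsUltrametricDist.norm_natCast_le_one F _)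
      _ = _ := one_mul _
  calc ‖t‖ ^ b * _ ≤ 1 * (1 / (l : ℝ)) ^ r :=
        mul_le_mul (pow_le_one₀ (norm_nonneg _) ht) h1 (norm_nonneg _) zero_le_one
    _ = _ := one_mul _

/-- the factorials -/
theorem norm_factorial {l : ℕ} [hl : Fact l.Prime] (hl2 : l ≠ 2)
    (hlF : ‖(l : F)‖ = 1 / (l : ℝ)) (r : ℕ) :
    (Real.sqrt (1 / (l : ℝ))) ^ r ≤ ‖(r.factorial : F)‖ := by
  rw [norm_nat hlF _ (Nat.factorial_ne_zero r)]
  have h1 := sub_one_mul_padicValNat_factorial (p := l) r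
  have h3 : 3 ≤ l := by
    have := hl.out.two_le
    omega
  have h2 : 2 * padicValNat l r.factorial ≤ r := by
    calc 2 * padicValNat l r.factorial ≤ (l - 1) * padicValNat l r.factorial :=
          Nat.mul_le_mul_right _ (by omega)
      _ ≤ r := by rw [h1]; exact Nat.sub_le _ _
  have hpos : (0 : ℝ) ≤ 1 / (l : ℝ) := by positivity
  have hle : Real.sqrt (1 / (l : ℝ)) ≤ 1 := by
    refine Real.sqrt_le_one.mpr ?_
    rw [div_le_one (by exact_mod_cast hl.out.pos)]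
    exact_mod_cast (by omega : 1 ≤ l)
  calc (Real.sqrt (1 / (l : ℝ))) ^ r
      ≤ (Real.sqrt (1 / (l : ℝ))) ^ (2 * padicValNat l r.factorial) :=
        pow_le_pow_of_le_one (Real.sqrt_nonneg _) hle h2
    _ = (1 / (l : ℝ)) ^ (padicValNat l r.factorial) := by
        rw [pow_mul, Real.sq_sqrt hpos]

/-- Strassmann for sequences with `‖Δ^r x(0)‖ ≤ ‖l‖^r` -/
theorem strass_fwd [CharZero F] {l : ℕ} [hl : Fact l.Prime] (hl2 : l ≠ 2)
    (hlF : ‖(l : F)‖ = 1 / (l : ℝ)) (x : ℕ → F)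
    (hx : ∀ r : ℕ, ‖((fwdDiff 1)^[r] x) 0‖ ≤ ‖(l : F)‖ ^ r) (hne : ∃ s, x s ≠ 0) :
    ∃ D : ℕ, ∃ C : ℝ, 0 < C ∧ ∀ A : Finset ℕ, A.card = D + 1 → ∀ S : ℕ, (∀ s ∈ A, s ≤ S) →
      ∃ s ∈ A, C ≤ ‖x s‖ * (S : ℝ) ^ D := by
  set d : ℕ → F := fun r => ((fwdDiff 1)^[r] x) 0 / (r.factorial : F) with hd
  have hf : ∀ s, x s = ∑ r ∈ range (s + 1), d r * (s.descFactorial r : F) := by
    intro s
    have h1 := shift_eq_sum_fwdDiff_iter (1 : ℕ) x s 0
    rw [zero_add, smul_eq_mul, mul_one] at h1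
    rw [h1]
    refine Finset.sum_congr rfl fun r _ => ?_
    rw [hd, nsmul_eq_mul, Nat.descFactorial_eq_factorial_mul_choose]
    have h2 : (r.factorial : F) ≠ 0 := by exact_mod_cast Nat.factorial_ne_zero r
    push_cast
    field_simp
  have hl3 : 3 ≤ l := by
    have := hl.out.two_le
    omega
  have hl0 : (0 : ℝ) < l := by exact_mod_cast hl.out.pos
  have hpos : (0 : ℝ) < 1 / (l : ℝ) := by positivity
  set q : ℝ := Real.sqrt (1 / (l : ℝ)) with hq
  have hq0 : 0 < q := Real.sqrt_pos.mpr hpos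
  have hq2 : q * q = 1 / (l : ℝ) := Real.mul_self_sqrt hpos.le
  have hq1 : q < 1 := by
    have h1 : q * q < 1 := by
      rw [hq2, div_lt_one hl0]
      exact_mod_cast (by omega : 1 < l)
    nlinarith
  have hdn : ∀ r, ‖d r‖ ≤ q ^ r := by
    intro r
    rw [hd]
    simp only [norm_div]
    have h2 := norm_factorial (F := F) hl2 hlF r
    have h3 := hx r
    rw [hlF, ← hq2, mul_pow] at h3
    rw [← hq] at h2
    have h4 : 0 < q ^ r := pow_pos hq0 r
    rw [div_le_iff₀ (lt_of_lt_of_le h4 h2)]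
    calc _ ≤ q ^ r * q ^ r := h3
      _ ≤ q ^ r * ‖(r.factorial : F)‖ := mul_le_mul_of_nonneg_left h2 h4.le
  refine strass (norm_nat_ge hlF) d ?_ ?_ x hf
  · exact squeeze_zero (fun r => norm_nonneg _) hdn (tendsto_pow_atTop_nhds_zero_of_lt_one hq0.le hq1)
  · by_contra hcon
    push Not at hcon
    obtain ⟨s, hs⟩ := hne
    refine hs ?_
    rw [hf s]
    exact Finset.sum_eq_zero fun r _ => by rw [hcon r, zero_mul]

end H87FD
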